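import Mathlib

/-!
# Canonical lifts of elements of order p in central extensions of order prime to p
-/

namespace Pool.Agent.Helper58.PSL

variable {K G : Type} [Group K] [Group G] {p : ℕ} [Fact p.Prime]

/-- uniqueness of lifts -/
theorem lift_unique (f : K →* G) (hk : f.ker ≤ Subgroup.center K)
    (hz : ¬ p ∣ Nat.card (Subgroup.center K)) [Finite K] {k k' : K} (h : f k = f k')
    (h1 : k ^ p = 1) (h2 : k' ^ p = 1) : k = k' := by
  have hz1 : k⁻¹ * k' ∈ Subgroup.center K := by
    apply hk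
    rw [MonoidHom.mem_ker, map_mul, map_inv, h, inv_mul_cancel]
  set z := k⁻¹ * k' with hzdef
  have hkz : k' = k * z := by rw [hzdef]; group
  have hcomm : Commute k z := (Subgroup.mem_center_iff.1 hz1 k)
  have hzp : z ^ p = 1 := by
    have h3 : (k * z) ^ p = k ^ p * z ^ p := hcomm.mul_pow p
    rw [← hkz, h2, h1, one_mul] at h3
    exact h3.symm
  have hzc : z ^ Nat.card (Subgroup.center K) = 1 := by
    have h4 : (⟨z, hz1⟩ : Subgroup.center K) ^ Nat.card (Subgroup.center K) = 1 := pow_card_eq_one'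
    exact congrArg Subtype.val h4
  have hcop : Nat.Coprime p (Nat.card (Subgroup.center K)) :=
    (Nat.Prime.coprime_iff_not_dvd Fact.out).2 hz
  have hz1' : z = 1 := by
    have h5 : orderOf z ∣ Nat.gcd p (Nat.card (Subgroup.center K)) :=
      Nat.dvd_gcd (orderOf_dvd_of_pow_eq_one hzp) (orderOf_dvd_of_pow_eq_one hzc)
    rw [hcop.gcd_eq_one, Nat.dvd_one] at h5
    exact orderOf_eq_one_iff.1 h5
  rw [hkz, hz1', mul_one]

/-- existence of lifts -/
theorem lift_exists (f : K →* G) (hf : Function.Surjective f) (hk : f.ker ≤ Subgroup.center K)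
    (hz : ¬ p ∣ Nat.card (Subgroup.center K)) [Finite K] (g : G) (hg : g ^ p = 1) :
    ∃ k : K, f k = g ∧ k ^ p = 1 := by
  obtain ⟨k, rfl⟩ := hf g
  have hcop : Nat.Coprime (Nat.card (Subgroup.center K)) p :=
    ((Nat.Prime.coprime_iff_not_dvd Fact.out).2 hz).symm
  obtain ⟨e, he1, he2⟩ := Nat.chineseRemainder hcop 0 1
  refine ⟨k ^ e, ?_, ?_⟩
  · rw [map_pow]
    have h1 : f k ^ e = f k ^ 1 := by
      rw [pow_eq_pow_iff_modEq]
      exact he2.of_dvd (orderOf_dvd_of_pow_eq_one hg)
    rw [h1, pow_one]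
  · obtain ⟨m, hm⟩ := (Nat.modEq_zero_iff_dvd).1 he1
    have hkp : k ^ p ∈ Subgroup.center K := hk (by rw [MonoidHom.mem_ker, map_pow, hg])
    have h4 : (⟨k ^ p, hkp⟩ : Subgroup.center K) ^ Nat.card (Subgroup.center K) = 1 := pow_card_eq_one'
    have h5 : (k ^ p) ^ Nat.card (Subgroup.center K) = 1 := congrArg Subtype.val h4
    rw [← pow_mul, mul_comm, pow_mul, hm, pow_mul, h5, one_pow]

/-- lifts of commuting elements commute -/
theorem lift_commute (f : K →* G) (hk : f.ker ≤ Subgroup.center K)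
    (hz : ¬ p ∣ Nat.card (Subgroup.center K)) [Finite K] {k k' : K} (h : Commute (f k) (f k'))
    (h1 : k ^ p = 1) : Commute k k' := by
  have h2 : k' * k * k'⁻¹ = k := by
    apply lift_unique f hk hz _ _ h1
    · rw [map_mul, map_mul, map_inv, ← h.eq, mul_assoc, mul_inv_cancel, mul_one]
    · rw [conj_pow, h1, mul_one, mul_inv_cancel]
  have h3 : k' * k = k * k' := by
    rw [mul_inv_eq_iff_eq_mul] at h2
    exact h2
  exact h3.symm

/-- lift of a homomorphism of an elementary abelian p-group given additively -/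
theorem lift_hom {F : Type} [Field F] [CharP F p] (f : K →* G) (hf : Function.Surjective f)
    (hk : f.ker ≤ Subgroup.center K) (hz : ¬ p ∣ Nat.card (Subgroup.center K)) [Finite K]
    (u : F → G) (hu : ∀ a b, u (a + b) = u a * u b) :
    ∃ x : F → K, (∀ a b, x (a + b) = x a * x b) ∧ (∀ a, f (x a) = u a) ∧ ∀ a, x a ^ p = 1 := by
  have hu0 : u 0 = 1 := by
    have h := hu 0 0
    rw [add_zero] at h
    exact (mul_eq_left.1 h.symm)
  have hnp : ∀ (n : ℕ) (a : F), u (n * a) = u a ^ n := by
    intro n a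
    induction n with
    | zero => simp [hu0]
    | succ n ih => rw [Nat.cast_succ, add_mul, one_mul, hu, ih, pow_succ]
  have hup : ∀ a, u a ^ p = 1 := by
    intro a
    rw [← hnp, CharP.cast_eq_zero, zero_mul, hu0]
  choose x hx1 hx2 using fun a => lift_exists f hf hk hz (u a) (hup a)
  refine ⟨x, fun a b => ?_, hx1, hx2⟩
  have hcomm : Commute (x a) (x b) := by
    apply lift_commute f hk hz _ (hx2 a)
    rw [hx1, hx1]
    change u a * u b = u b * u a
    rw [← hu, ← hu, add_comm]
  apply lift_unique f hk hz _ (hx2 _)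
  · rw [hcomm.mul_pow, hx2, hx2, one_mul]
  · rw [hx1, map_mul, hx1, hx1, hu]

end Pool.Agent.Helper58.PSL
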