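import Pool.Agent.Helper58.PSL.Normal
import Pool.Agent.Helper58.PSL.Lift

/-!
# Perfect central extensions of PSL(2,F) of degree prime to the characteristic are quotients of
SL(2,F), F a finite field of odd characteristic
-/

namespace Pool.Agent.Helper58.PSL

open Matrix MatrixGroups

section

variable {F : Type} [Field F]

/-- upper unipotent element -/
def xs (a : F) : SL(2, F) := ⟨!![1, a; 0, 1], by simp [Matrix.det_fin_two]⟩

/-- lower unipotent element -/
def ys (a : F) : SL(2, F) := ⟨!![1, 0; a, 1], by simp [Matrix.det_fin_two]⟩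

theorem xs_coe (a : F) : (xs a : Matrix (Fin 2) (Fin 2) F) = !![1, a; 0, 1] := rfl

theorem ys_coe (a : F) : (ys a : Matrix (Fin 2) (Fin 2) F) = !![1, 0; a, 1] := rfl

theorem wel_coe (t : F) (ht : t ≠ 0) :
    ((wel xs ys t : SL(2, F)) : Matrix (Fin 2) (Fin 2) F) = !![0, t; -t⁻¹, 0] := by
  unfold wel
  rw [Matrix.SpecialLinearGroup.coe_mul, Matrix.SpecialLinearGroup.coe_mul, xs_coe, ys_coe]
  ext i j
  fin_cases i <;> fin_cases j <;> simp [Matrix.mul_apply, Fin.sum_univ_two, ht]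

theorem hel_coe (t : F) (ht : t ≠ 0) :
    ((hel xs ys t : SL(2, F)) : Matrix (Fin 2) (Fin 2) F) = !![t, 0; 0, t⁻¹] := by
  unfold hel
  rw [Matrix.SpecialLinearGroup.coe_mul, wel_coe t ht, wel_coe (-1) (neg_ne_zero.2 one_ne_zero)]
  ext i j
  fin_cases i <;> fin_cases j <;> simp [Matrix.mul_apply, Fin.sum_univ_two, inv_neg]

theorem rk1_sl : Rk1 (xs (F := F)) ys where
  addx a b := by
    apply Subtype.ext
    rw [Matrix.SpecialLinearGroup.coe_mul, xs_coe, xs_coe, xs_coe]
    ext i j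
    fin_cases i <;> fin_cases j <;> simp [Matrix.mul_apply, Fin.sum_univ_two, add_comm]
  addy a b := by
    apply Subtype.ext
    rw [Matrix.SpecialLinearGroup.coe_mul, ys_coe, ys_coe, ys_coe]
    ext i j
    fin_cases i <;> fin_cases j <;> simp [Matrix.mul_apply, Fin.sum_univ_two]
  wx t a ht := by
    rw [mul_inv_eq_iff_eq_mul]
    apply Subtype.ext
    rw [Matrix.SpecialLinearGroup.coe_mul, Matrix.SpecialLinearGroup.coe_mul, xs_coe, ys_coe,
      wel_coe t ht]
    ext i j
    fin_cases i <;> fin_cases j <;> simp [Matrix.mul_apply, Fin.sum_univ_two]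
    field_simp
  wy t a ht := by
    rw [mul_inv_eq_iff_eq_mul]
    apply Subtype.ext
    rw [Matrix.SpecialLinearGroup.coe_mul, Matrix.SpecialLinearGroup.coe_mul, xs_coe, ys_coe,
      wel_coe t ht]
    ext i j
    fin_cases i <;> fin_cases j <;> simp [Matrix.mul_apply, Fin.sum_univ_two]
    field_simp

theorem hel_mul_sl (s t : F) (hs : s ≠ 0) (ht : t ≠ 0) :
    hel xs ys s * hel xs ys t = hel xs ys (s * t) := by
  apply Subtype.ext
  rw [Matrix.SpecialLinearGroup.coe_mul, hel_coe s hs, hel_coe t ht, hel_coe _ (mul_ne_zero hs ht)]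
  ext i j
  fin_cases i <;> fin_cases j <;> simp [Matrix.mul_apply, Fin.sum_univ_two, mul_comm]

theorem gen_sl (S : Subgroup SL(2, F)) (hx : ∀ a, xs a ∈ S) (hy : ∀ a, ys a ∈ S) : S = ⊤ := by
  rw [eq_top_iff]
  intro g _
  refine Matrix.SL2.transvection_induction (fun g => g ∈ S) ?_ (fun A B => S.mul_mem) g
  intro i j hij c
  fin_cases i <;> fin_cases j
  · exact absurd rfl hij
  · convert hx c using 1
    apply Subtype.ext
    rw [xs_coe, Matrix.SpecialLinearGroup.transvection_coe]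
    ext i j
    fin_cases i <;> fin_cases j <;> simp
  · convert hy c using 1
    apply Subtype.ext
    rw [ys_coe, Matrix.SpecialLinearGroup.transvection_coe]
    ext i j
    fin_cases i <;> fin_cases j <;> simp
  · exact absurd rfl hij

end

/-- **covers** -/
theorem cover {F : Type} [Field F] [Finite F] {p : ℕ} [Fact p.Prime] [CharP F p] (hp : p ≠ 2)
    {K : Type} [Group K] [Finite K] (hperf : ⁅(⊤ : Subgroup K), (⊤ : Subgroup K)⁆ = ⊤)
    (e : (K ⧸ Subgroup.center K) ≃* PSL(2, F)) (hz : ¬ p ∣ Nat.card (Subgroup.center K)) :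
    ∃ π : SL(2, F) →* K, Function.Surjective π ∧ π.ker ≤ Subgroup.center SL(2, F) := by
  have h2 : ringChar F ≠ 2 := by
    rw [ringChar.eq F p]
    exact hp
  let mk : SL(2, F) →* PSL(2, F) := QuotientGroup.mk' (Subgroup.center SL(2, F))
  let f : K →* PSL(2, F) := e.toMonoidHom.comp (QuotientGroup.mk' (Subgroup.center K))
  have hf : Function.Surjective f := e.surjective.comp (QuotientGroup.mk'_surjective _)
  have hker : ∀ k : K, f k = 1 ↔ k ∈ Subgroup.center K := by
    intro k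
    change e (QuotientGroup.mk' (Subgroup.center K) k) = 1 ↔ _
    rw [map_eq_one_iff e e.injective]
    exact QuotientGroup.eq_one_iff k
  have hk : f.ker ≤ Subgroup.center K := fun k hk => (hker k).1 hk
  obtain ⟨x, hxa, hxf, hxp⟩ := lift_hom (p := p) f hf hk hz (fun a : F => mk (xs a))
    (fun a b => by rw [rk1_sl.addx, map_mul])
  obtain ⟨y, hya, hyf, hyp⟩ := lift_hom (p := p) f hf hk hz (fun a : F => mk (ys a))
    (fun a b => by rw [rk1_sl.addy, map_mul])
  have hfw : ∀ t, f (wel x y t) = mk (wel xs ys t) := by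
    intro t
    unfold wel
    rw [map_mul, map_mul, hxf, hyf, map_mul, map_mul]
  have hfh : ∀ t, f (hel x y t) = mk (hel xs ys t) := by
    intro t
    unfold hel
    rw [map_mul, hfw, hfw, map_mul]
  have hR : Rk1 x y := by
    refine ⟨hxa, hya, fun t a ht => ?_, fun t a ht => ?_⟩
    · apply lift_unique (p := p) f hk hz _ _ (hyp _)
      · rw [map_mul, map_mul, map_inv, hfw, hxf, hyf, ← map_inv, ← map_mul, ← map_mul,
          rk1_sl.wx t a ht]
      · rw [conj_pow, hxp, mul_one, mul_inv_cancel]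
    · apply lift_unique (p := p) f hk hz _ _ (hxp _)
      · rw [map_mul, map_mul, map_inv, hfw, hxf, hyf, ← map_inv, ← map_mul, ← map_mul,
          rk1_sl.wy t a ht]
      · rw [conj_pow, hyp, mul_one, mul_inv_cancel]
  have hhm : ∀ s t : F, s ≠ 0 → t ≠ 0 → hel x y s * hel x y t = hel x y (s * t) := by
    intro s t hs ht
    refine hR.h_mul h2 ?_ hs ht
    intro s t hs ht
    rw [← hker, map_mul, map_mul, map_inv, hfh, hfh, hfh, ← map_mul, hel_mul_sl s t hs ht,
      mul_inv_cancel]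
  -- the product group
  let X : F → SL(2, F) × K := fun a => (xs a, x a)
  let Y : F → SL(2, F) × K := fun a => (ys a, y a)
  have hW : ∀ t, wel X Y t = (wel xs ys t, wel x y t) := fun t => rfl
  have hH : ∀ t, hel X Y t = (hel xs ys t, hel x y t) := fun t => rfl
  have hRP : Rk1 X Y := by
    refine ⟨fun a b => ?_, fun a b => ?_, fun t a ht => ?_, fun t a ht => ?_⟩
    · exact Prod.ext (rk1_sl.addx a b) (hR.addx a b)
    · exact Prod.ext (rk1_sl.addy a b) (hR.addy a b)
    · exact Prod.ext (rk1_sl.wx t a ht) (hR.wx t a ht)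
    · exact Prod.ext (rk1_sl.wy t a ht) (hR.wy t a ht)
  have hmP : ∀ s t : F, s ≠ 0 → t ≠ 0 → hel X Y s * hel X Y t = hel X Y (s * t) := by
    intro s t hs ht
    exact Prod.ext (hel_mul_sl s t hs ht) (hhm s t hs ht)
  let L : Subgroup (SL(2, F) × K) := Subgroup.closure (Set.range X ∪ Set.range Y)
  have hXL : ∀ a, X a ∈ L := fun a => Subgroup.subset_closure (Or.inl ⟨a, rfl⟩)
  have hYL : ∀ a, Y a ∈ L := fun a => Subgroup.subset_closure (Or.inr ⟨a, rfl⟩)
  let q : L →* SL(2, F) := (MonoidHom.fst SL(2, F) K).comp L.subtype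
  have hqs : Function.Surjective q := by
    rw [← MonoidHom.range_eq_top]
    exact gen_sl _ (fun a => ⟨⟨X a, hXL a⟩, rfl⟩) (fun a => ⟨⟨Y a, hYL a⟩, rfl⟩)
  have hqi : Function.Injective q := by
    rw [injective_iff_map_eq_one]
    rintro ⟨l, hl⟩ h1
    have h1' : l.1 = 1 := h1
    rcases nform_closure hRP hmP hl with ⟨a, b, hb, rfl⟩ | ⟨a, b, c, hb, rfl⟩
    · have h3 : (xs a * hel xs ys b : SL(2, F)) = 1 := h1'
      have h4 := congrArg (fun g : SL(2, F) => (g : Matrix (Fin 2) (Fin 2) F)) h3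
      simp only [Matrix.SpecialLinearGroup.coe_mul, xs_coe, hel_coe b hb,
        Matrix.SpecialLinearGroup.coe_one] at h4
      have h5 := congrFun (congrFun h4 0) 0
      have h6 := congrFun (congrFun h4 0) 1
      simp [Matrix.mul_apply, Fin.sum_univ_two] at h5 h6
      subst h5
      have ha : a = 0 := by simpa using h6
      subst ha
      apply Subtype.ext
      change X 0 * hel X Y 1 = 1
      rw [hRP.x0, hRP.h1, one_mul]
    · exfalso
      have h3 : (xs a * hel xs ys b * wel xs ys 1 * xs c : SL(2, F)) = 1 := h1'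
      have h4 := congrArg (fun g : SL(2, F) => (g : Matrix (Fin 2) (Fin 2) F)) h3
      simp only [Matrix.SpecialLinearGroup.coe_mul, xs_coe, hel_coe b hb, wel_coe (1 : F) one_ne_zero,
        Matrix.SpecialLinearGroup.coe_one] at h4
      have h5 := congrFun (congrFun h4 1) 0
      simp [Matrix.mul_apply, Fin.sum_univ_two] at h5
      exact hb h5
  let E : L ≃* SL(2, F) := MulEquiv.ofBijective q ⟨hqi, hqs⟩
  let π : SL(2, F) →* K := (MonoidHom.snd SL(2, F) K).comp (L.subtype.comp E.symm.toMonoidHom)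
  have hLf : ∀ l ∈ L, f l.2 = mk l.1 := by
    intro l hl
    have h3 : L ≤ (f.comp (MonoidHom.snd SL(2, F) K)).eqLocus (mk.comp (MonoidHom.fst SL(2, F) K)) := by
      rw [Subgroup.closure_le]
      rintro g (⟨a, rfl⟩ | ⟨a, rfl⟩)
      · exact hxf a
      · exact hyf a
    exact h3 hl
  have hπf : ∀ g, f (π g) = mk g := by
    intro g
    have h3 := hLf (E.symm g).1 (E.symm g).2
    have h4 : ((E.symm g).1).1 = g := E.apply_symm_apply g
    rw [h4] at h3
    exact h3
  refine ⟨π, ?_, ?_⟩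
  · rw [← MonoidHom.range_eq_top, eq_top_iff, ← hperf, Subgroup.commutator_le]
    have hdec : ∀ k : K, ∃ g, ∃ z ∈ Subgroup.center K, k = π g * z := by
      intro k
      obtain ⟨g, hg⟩ := QuotientGroup.mk'_surjective (Subgroup.center SL(2, F)) (f k)
      refine ⟨g, (π g)⁻¹ * k, ?_, by group⟩
      rw [← hker, map_mul, map_inv, hπf, ← hg]
      exact inv_mul_cancel _
    intro k _ k' _
    obtain ⟨g, z, hz1, rfl⟩ := hdec k
    obtain ⟨g', z', hz2, rfl⟩ := hdec k'
    refine ⟨g * g' * g⁻¹ * g'⁻¹, ?_⟩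
    have c1 := Subgroup.mem_center_iff.1 hz1
    have c2 := Subgroup.mem_center_iff.1 hz2
    rw [map_mul, map_mul, map_mul, map_inv, map_inv, commutatorElement_def, _root_.mul_inv_rev,
      _root_.mul_inv_rev]
    calc π g * π g' * (π g)⁻¹ * (π g')⁻¹
        = π g * π g' * (z * z⁻¹) * (π g)⁻¹ * (z' * z'⁻¹) * (π g')⁻¹ := by group
      _ = π g * (π g' * z) * z⁻¹ * ((π g)⁻¹ * z') * z'⁻¹ * (π g')⁻¹ := by group
      _ = π g * (z * π g') * z⁻¹ * (z' * (π g)⁻¹) * z'⁻¹ * (π g')⁻¹ := by rw [c1, c2]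
      _ = π g * z * π g' * (z⁻¹ * z') * (π g)⁻¹ * z'⁻¹ * (π g')⁻¹ := by group
      _ = π g * z * π g' * (z' * z⁻¹) * (π g)⁻¹ * z'⁻¹ * (π g')⁻¹ := by rw [c2 z⁻¹]
      _ = π g * z * (π g' * z') * (z⁻¹ * (π g)⁻¹) * (z'⁻¹ * (π g')⁻¹) := by group
  · intro g hg
    have h3 := hπf g
    rw [MonoidHom.mem_ker] at hg
    rw [hg, map_one] at h3
    exact (QuotientGroup.eq_one_iff g).1 h3.symm

end Pool.Agent.Helper58.PSL
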