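import Pool.Agent.Helper58.PSL.Steinberg

/-!
# Bruhat normal form in a group with the rank one Steinberg relations
-/

namespace Pool.Agent.Helper58.PSL

section

variable {F K : Type} [Field F] [Group K] {x y : F → K}

/-- the set of normal forms -/
def NForm (x y : F → K) (k : K) : Prop :=
  (∃ a b : F, b ≠ 0 ∧ k = x a * hel x y b) ∨
    ∃ a b c : F, b ≠ 0 ∧ k = x a * hel x y b * wel x y 1 * x c

variable (h : Rk1 x y) (hm : ∀ s t : F, s ≠ 0 → t ≠ 0 → hel x y s * hel x y t = hel x y (s * t))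

include h hm

theorem w1_sq : wel x y 1 * wel x y 1 = hel x y (-1) := by
  have h1 : hel x y (-1) * hel x y (-1) = 1 := by
    rw [hm _ _ (neg_ne_zero.2 one_ne_zero) (neg_ne_zero.2 one_ne_zero)]
    rw [show (-1 : F) * -1 = 1 by ring, h.h1]
  have h2 : hel x y (-1) = (wel x y 1 * wel x y 1)⁻¹ := by
    unfold hel
    rw [h.wneg 1]
    group
  rw [h2] at h1 ⊢
  have h3 := inv_eq_of_mul_eq_one_left h1
  rw [inv_inv] at h3
  exact h3

theorem hneg_x (a : F) : hel x y (-1) * x a = x a * hel x y (-1) := by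
  have h1 := h.hx (neg_ne_zero.2 (one_ne_zero (α := F))) a
  rw [mul_inv_eq_iff_eq_mul] at h1
  rw [h1]
  congr 2
  ring

theorem hneg_w : hel x y (-1) * wel x y 1 = wel x y 1 * hel x y (-1) := by
  rw [← w1_sq h hm]
  group

omit hm in
theorem nform_x {k : K} (hk : NForm x y k) (e : F) : NForm x y (k * x e) := by
  rcases hk with ⟨a, b, hb, rfl⟩ | ⟨a, b, c, hb, rfl⟩
  · left
    refine ⟨a + b ^ 2 * e, b, hb, ?_⟩
    have h1 := h.hx hb e
    rw [mul_inv_eq_iff_eq_mul] at h1
    rw [mul_assoc, h1, h.addx, mul_assoc]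
  · right
    refine ⟨a, b, c + e, hb, ?_⟩
    rw [h.addx]
    simp only [mul_assoc]

theorem nform_hneg {k : K} (hk : NForm x y k) : NForm x y (k * hel x y (-1)) := by
  have h1 : (-1 : F) ≠ 0 := neg_ne_zero.2 one_ne_zero
  rcases hk with ⟨a, b, hb, rfl⟩ | ⟨a, b, c, hb, rfl⟩
  · left
    exact ⟨a, b * -1, mul_ne_zero hb h1, by rw [mul_assoc, hm _ _ hb h1]⟩
  · right
    refine ⟨a, b * -1, c, mul_ne_zero hb h1, ?_⟩
    rw [← hm _ _ hb h1]
    calc x a * hel x y b * wel x y 1 * x c * hel x y (-1)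
        = x a * hel x y b * wel x y 1 * (x c * hel x y (-1)) := by group
      _ = x a * hel x y b * wel x y 1 * (hel x y (-1) * x c) := by rw [hneg_x h hm]
      _ = x a * hel x y b * (wel x y 1 * hel x y (-1)) * x c := by group
      _ = x a * hel x y b * (hel x y (-1) * wel x y 1) * x c := by rw [hneg_w h hm]
      _ = x a * (hel x y b * hel x y (-1)) * wel x y 1 * x c := by group

theorem nform_w {k : K} (hk : NForm x y k) : NForm x y (k * wel x y 1) := by
  have h1 : (-1 : F) ≠ 0 := neg_ne_zero.2 one_ne_zero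
  rcases hk with ⟨a, b, hb, rfl⟩ | ⟨a, b, c, hb, rfl⟩
  · right
    exact ⟨a, b, 0, hb, by rw [h.x0, mul_one]⟩
  · by_cases hc : c = 0
    · subst hc
      left
      refine ⟨a, b * -1, mul_ne_zero hb h1, ?_⟩
      rw [h.x0, mul_one, mul_assoc, w1_sq h hm, mul_assoc, hm _ _ hb h1]
    · -- w1 x c w1 = x(-c⁻¹) h(c⁻¹) h(-1) w1 x(-c⁻¹)
      have hci : c⁻¹ ≠ 0 := inv_ne_zero hc
      have e1 : wel x y 1 * x c * wel x y 1 = y (-c) * hel x y (-1) := by
        have h2 := h.wx 1 c one_ne_zero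
        rw [← w1_sq h hm]
        have h3 : y (-c) = wel x y 1 * x c * (wel x y 1)⁻¹ := by
          rw [h2]
          congr 1
          ring
        rw [h3]
        group
      have e2 : y (-c) = x (-c⁻¹) * wel x y c⁻¹ * x (-c⁻¹) := by
        unfold wel
        rw [inv_inv, h.xneg]
        group
      have e3 : wel x y 1 * x c * wel x y 1 =
          x (-c⁻¹) * (hel x y c⁻¹ * hel x y (-1)) * wel x y 1 * x (-c⁻¹) := by
        rw [e1, e2, h.w_eq c⁻¹]
        calc x (-c⁻¹) * (hel x y c⁻¹ * wel x y 1) * x (-c⁻¹) * hel x y (-1)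
            = x (-c⁻¹) * hel x y c⁻¹ * wel x y 1 * (x (-c⁻¹) * hel x y (-1)) := by group
          _ = x (-c⁻¹) * hel x y c⁻¹ * wel x y 1 * (hel x y (-1) * x (-c⁻¹)) := by
              rw [hneg_x h hm]
          _ = x (-c⁻¹) * hel x y c⁻¹ * (wel x y 1 * hel x y (-1)) * x (-c⁻¹) := by group
          _ = x (-c⁻¹) * hel x y c⁻¹ * (hel x y (-1) * wel x y 1) * x (-c⁻¹) := by
              rw [hneg_w h hm]
          _ = _ := by group
      have e4 : hel x y b * x (-c⁻¹) = x (b ^ 2 * -c⁻¹) * hel x y b := by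
        have h2 := h.hx hb (-c⁻¹)
        rw [mul_inv_eq_iff_eq_mul] at h2
        exact h2
      right
      refine ⟨a + b ^ 2 * -c⁻¹, b * (c⁻¹ * -1), -c⁻¹, mul_ne_zero hb (mul_ne_zero hci h1), ?_⟩
      calc x a * hel x y b * wel x y 1 * x c * wel x y 1
          = x a * hel x y b * (wel x y 1 * x c * wel x y 1) := by group
        _ = x a * (hel x y b * x (-c⁻¹)) * (hel x y c⁻¹ * hel x y (-1)) * wel x y 1 * x (-c⁻¹) := by
            rw [e3]; group
        _ = (x a * x (b ^ 2 * -c⁻¹)) * (hel x y b * (hel x y c⁻¹ * hel x y (-1))) * wel x y 1 *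
              x (-c⁻¹) := by rw [e4]; group
        _ = _ := by rw [hm _ _ hci h1, hm _ _ hb (mul_ne_zero hci h1), ← h.addx]

theorem nform_y {k : K} (hk : NForm x y k) (e : F) : NForm x y (k * y e) := by
  have e1 : y e = wel x y 1 * x (-e) * wel x y 1 * hel x y (-1) := by
    have h2 := h.wx 1 (-e) one_ne_zero
    have h3 : y e = wel x y 1 * x (-e) * (wel x y 1)⁻¹ := by
      rw [h2]
      congr 1
      ring
    have h4 : (wel x y 1)⁻¹ = wel x y 1 * hel x y (-1) := by
      have h5 : hel x y (-1) = (wel x y 1 * wel x y 1)⁻¹ := by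
        unfold hel
        rw [h.wneg 1]
        group
      rw [h5]
      group
    rw [h3, h4]
    group
  rw [e1, ← mul_assoc, ← mul_assoc, ← mul_assoc]
  exact nform_hneg h hm (nform_w h hm (nform_x h (nform_w h hm hk) _))

theorem nform_closure {k : K} (hk : k ∈ Subgroup.closure (Set.range x ∪ Set.range y)) :
    NForm x y k := by
  have hinv : ∀ g ∈ Set.range x ∪ Set.range y, g⁻¹ ∈ Set.range x ∪ Set.range y := by
    rintro g (⟨a, rfl⟩ | ⟨a, rfl⟩)
    · left; exact ⟨-a, h.xneg a⟩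
    · right; exact ⟨-a, h.yneg a⟩
  induction hk using Subgroup.closure_induction_right with
  | one => left; exact ⟨0, 1, one_ne_zero, by rw [h.x0, h.h1, one_mul]⟩
  | mul_right g _ s hs ih =>
    rcases hs with ⟨a, rfl⟩ | ⟨a, rfl⟩
    · exact nform_x h ih a
    · exact nform_y h hm ih a
  | mul_inv_cancel g _ s hs ih =>
    rcases hinv s hs with ⟨a, ha⟩ | ⟨a, ha⟩
    · rw [← ha]; exact nform_x h ih a
    · rw [← ha]; exact nform_y h hm ih a

end

end Pool.Agent.Helper58.PSL
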