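import Mathlib

/-!
# The Steinberg symbol of a rank one central extension over a finite field of odd characteristic
is trivial
-/

namespace Pool.Agent.Helper58.PSL

/-- `w t = x t * y (-t⁻¹) * x t` -/
def wel {F K : Type} [Field F] [Group K] (x y : F → K) (t : F) : K := x t * y (-t⁻¹) * x t

/-- `h t = w t * w (-1)` -/
def hel {F K : Type} [Field F] [Group K] (x y : F → K) (t : F) : K := wel x y t * wel x y (-1)

/-- rank one Steinberg relations -/
structure Rk1 {F K : Type} [Field F] [Group K] (x y : F → K) : Prop where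
  addx : ∀ a b, x (a + b) = x a * x b
  addy : ∀ a b, y (a + b) = y a * y b
  wx : ∀ t a, t ≠ 0 → wel x y t * x a * (wel x y t)⁻¹ = y (-(t⁻¹ ^ 2 * a))
  wy : ∀ t a, t ≠ 0 → wel x y t * y a * (wel x y t)⁻¹ = x (-(t ^ 2 * a))

section

variable {F K : Type} [Field F] [Group K] {x y : F → K}

theorem Rk1.x0 (h : Rk1 x y) : x 0 = 1 := by
  have h1 := h.addx 0 0
  rw [add_zero] at h1
  exact mul_eq_left.1 h1.symm

theorem Rk1.y0 (h : Rk1 x y) : y 0 = 1 := by
  have h1 := h.addy 0 0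
  rw [add_zero] at h1
  exact mul_eq_left.1 h1.symm

theorem Rk1.xneg (h : Rk1 x y) (a : F) : x (-a) = (x a)⁻¹ := by
  rw [eq_inv_iff_mul_eq_one, ← h.addx, neg_add_cancel, h.x0]

theorem Rk1.yneg (h : Rk1 x y) (a : F) : y (-a) = (y a)⁻¹ := by
  rw [eq_inv_iff_mul_eq_one, ← h.addy, neg_add_cancel, h.y0]

theorem Rk1.wneg (h : Rk1 x y) (t : F) : wel x y (-t) = (wel x y t)⁻¹ := by
  unfold wel
  rw [h.xneg, inv_neg, h.yneg (-t⁻¹)]
  group

theorem Rk1.w' (h : Rk1 x y) {t : F} (ht : t ≠ 0) :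
    wel x y t = y (-t⁻¹) * x t * y (-t⁻¹) := by
  have h1 : wel x y t = wel x y t * wel x y t * (wel x y t)⁻¹ := by group
  have h2 : wel x y t * wel x y t * (wel x y t)⁻¹ =
      (wel x y t * x t * (wel x y t)⁻¹) * (wel x y t * y (-t⁻¹) * (wel x y t)⁻¹) *
        (wel x y t * x t * (wel x y t)⁻¹) := by
    conv_lhs => rw [show wel x y t * wel x y t * (wel x y t)⁻¹ =
      wel x y t * (x t * y (-t⁻¹) * x t) * (wel x y t)⁻¹ from rfl]
    group
  rw [h1, h2, h.wx t t ht, h.wy t _ ht]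
  congr 2
  · congr 1
    congr 1
    field_simp
  · congr 1
    field_simp
  · congr 1
    field_simp

theorem Rk1.ww (h : Rk1 x y) {t u : F} (ht : t ≠ 0) (hu : u ≠ 0) :
    wel x y t * wel x y u * (wel x y t)⁻¹ = wel x y (t ^ 2 * u⁻¹) := by
  have hv : t ^ 2 * u⁻¹ ≠ 0 := mul_ne_zero (pow_ne_zero 2 ht) (inv_ne_zero hu)
  rw [h.w' hv]
  have h2 : wel x y t * wel x y u * (wel x y t)⁻¹ =
      (wel x y t * x u * (wel x y t)⁻¹) * (wel x y t * y (-u⁻¹) * (wel x y t)⁻¹) *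
        (wel x y t * x u * (wel x y t)⁻¹) := by
    conv_lhs => rw [show wel x y t * wel x y u * (wel x y t)⁻¹ =
      wel x y t * (x u * y (-u⁻¹) * x u) * (wel x y t)⁻¹ from rfl]
    group
  rw [h2, h.wx t _ ht, h.wy t _ ht]
  congr 2
  · congr 1
    congr 1
    field_simp
  · congr 1
    field_simp
  · congr 1
    field_simp

theorem Rk1.winv (h : Rk1 x y) (t : F) : (wel x y t)⁻¹ = wel x y (-t) := (h.wneg t).symm

theorem Rk1.h1 (h : Rk1 x y) : hel x y 1 = 1 := by
  unfold hel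
  rw [h.wneg, mul_inv_cancel]

theorem Rk1.w_eq (h : Rk1 x y) (t : F) : wel x y t = hel x y t * wel x y 1 := by
  unfold hel
  rw [h.wneg 1]
  group

/-- `h s * w t * (h s)⁻¹ = w (s² t)` -/
theorem Rk1.hw (h : Rk1 x y) {s t : F} (hs : s ≠ 0) (ht : t ≠ 0) :
    hel x y s * wel x y t * (hel x y s)⁻¹ = wel x y (s ^ 2 * t) := by
  have h1 : hel x y s * wel x y t * (hel x y s)⁻¹ =
      wel x y s * (wel x y (-1) * wel x y t * (wel x y (-1))⁻¹) * (wel x y s)⁻¹ := by
    unfold hel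
    group
  rw [h1, h.ww (neg_ne_zero.2 one_ne_zero) ht, h.ww hs (mul_ne_zero (pow_ne_zero 2
    (neg_ne_zero.2 one_ne_zero)) (inv_ne_zero ht))]
  congr 1
  field_simp

/-- `h s * x a * (h s)⁻¹ = x (s² a)` -/
theorem Rk1.hx (h : Rk1 x y) {s : F} (hs : s ≠ 0) (a : F) :
    hel x y s * x a * (hel x y s)⁻¹ = x (s ^ 2 * a) := by
  have h1 : hel x y s * x a * (hel x y s)⁻¹ =
      wel x y s * (wel x y (-1) * x a * (wel x y (-1))⁻¹) * (wel x y s)⁻¹ := by
    unfold hel
    group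
  rw [h1, h.wx _ _ (neg_ne_zero.2 one_ne_zero), h.wy s _ hs]
  congr 1
  field_simp

/-- `h s * h t * (h s)⁻¹ = h (s² t) * (h (s²))⁻¹` -/
theorem Rk1.hh (h : Rk1 x y) {s t : F} (hs : s ≠ 0) (ht : t ≠ 0) :
    hel x y s * hel x y t * (hel x y s)⁻¹ = hel x y (s ^ 2 * t) * (hel x y (s ^ 2))⁻¹ := by
  have h1 : hel x y s * hel x y t * (hel x y s)⁻¹ =
      (hel x y s * wel x y t * (hel x y s)⁻¹) * (hel x y s * wel x y (-1) * (hel x y s)⁻¹) := by
    conv_lhs => rw [show hel x y t = wel x y t * wel x y (-1) from rfl]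
    group
  rw [h1, h.hw hs ht, h.hw hs (neg_ne_zero.2 one_ne_zero)]
  have h2 : s ^ 2 * (-1 : F) = -(s ^ 2) := by ring
  rw [h2, h.wneg (s ^ 2)]
  unfold hel
  rw [h.wneg 1]
  group

/-- conjugation of `h t` by `w 1` -/
theorem Rk1.wh (h : Rk1 x y) {t : F} (ht : t ≠ 0) :
    wel x y 1 * hel x y t * (wel x y 1)⁻¹ = hel x y t⁻¹ := by
  have h1 : wel x y 1 * hel x y t * (wel x y 1)⁻¹ =
      (wel x y 1 * wel x y t * (wel x y 1)⁻¹) * (wel x y 1 * wel x y (-1) * (wel x y 1)⁻¹) := by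
    conv_lhs => rw [show hel x y t = wel x y t * wel x y (-1) from rfl]
    group
  rw [h1, h.ww one_ne_zero ht, h.ww one_ne_zero (neg_ne_zero.2 one_ne_zero)]
  unfold hel
  congr 2
  · ring
  · norm_num

/-- `w s * w t = w (s²) * w (s t)` if `s + t = 1` -/
theorem Rk1.wst (h : Rk1 x y) {s t : F} (hs : s ≠ 0) (ht : t ≠ 0) (hst : s + t = 1) :
    wel x y s * wel x y t = wel x y (s ^ 2) * wel x y (s * t) := by
  have hst0 : s * t ≠ 0 := mul_ne_zero hs ht
  have hs2 : s ^ 2 ≠ 0 := pow_ne_zero 2 hs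
  have htt : t = 1 - s := by rw [← hst]; ring
  have e1 : wel x y s * wel x y t =
      y (-s⁻¹) * x s * y (-(s * t)⁻¹) * x t * y (-t⁻¹) := by
    rw [h.w' hs, h.w' ht]
    have : -(s * t)⁻¹ = -s⁻¹ + -t⁻¹ := by
      field_simp
      rw [← hst]; ring
    rw [this, h.addy]
    group
  have e2 : y (-(s * t)⁻¹) = x (-(s * t)) * wel x y (s * t) * x (-(s * t)) := by
    unfold wel
    rw [h.xneg]
    group
  have e3 : x s * x (-(s * t)) = x (s ^ 2) := by
    rw [← h.addx]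
    congr 1
    rw [htt]; ring
  have e4 : x (-(s * t)) * x t = x (t ^ 2) := by
    rw [← h.addx]
    congr 1
    rw [htt]; ring
  have e5 : wel x y (s * t) * x (t ^ 2) = y (-(s ^ 2)⁻¹) * wel x y (s * t) := by
    have h1 := h.wx (s * t) (t ^ 2) hst0
    rw [mul_inv_eq_iff_eq_mul] at h1
    rw [h1]
    congr 2
    field_simp
  have e6 : x (s ^ 2) * y (-(s ^ 2)⁻¹) = wel x y (s ^ 2) * x (-(s ^ 2)) := by
    unfold wel
    rw [h.xneg]
    group
  have e7 : wel x y (s * t) * y (-t⁻¹) = x (s ^ 2 * t) * wel x y (s * t) := by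
    have h1 := h.wy (s * t) (-t⁻¹) hst0
    rw [mul_inv_eq_iff_eq_mul] at h1
    rw [h1]
    congr 2
    field_simp
  have e8 : x (-(s ^ 2)) * x (s ^ 2 * t) = x (-(s ^ 3)) := by
    rw [← h.addx]
    congr 1
    rw [htt]; ring
  have e9 : wel x y (s ^ 2) * x (-(s ^ 3)) = y s⁻¹ * wel x y (s ^ 2) := by
    have h1 := h.wx (s ^ 2) (-(s ^ 3)) hs2
    rw [mul_inv_eq_iff_eq_mul] at h1
    rw [h1]
    congr 2
    field_simp
  have e10 : y (-s⁻¹) * y s⁻¹ = 1 := by rw [← h.addy, neg_add_cancel, h.y0]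
  calc wel x y s * wel x y t = y (-s⁻¹) * x s * y (-(s * t)⁻¹) * x t * y (-t⁻¹) := e1
    _ = y (-s⁻¹) * (x s * x (-(s * t))) * wel x y (s * t) * (x (-(s * t)) * x t) * y (-t⁻¹) := by
        rw [e2]; group
    _ = y (-s⁻¹) * x (s ^ 2) * (wel x y (s * t) * x (t ^ 2)) * y (-t⁻¹) := by
        rw [e3, e4]; group
    _ = y (-s⁻¹) * (x (s ^ 2) * y (-(s ^ 2)⁻¹)) * (wel x y (s * t) * y (-t⁻¹)) := by
        rw [e5]; group
    _ = y (-s⁻¹) * wel x y (s ^ 2) * (x (-(s ^ 2)) * x (s ^ 2 * t)) * wel x y (s * t) := by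
        rw [e6, e7]; group
    _ = y (-s⁻¹) * (wel x y (s ^ 2) * x (-(s ^ 3))) * wel x y (s * t) := by
        rw [e8]; group
    _ = (y (-s⁻¹) * y s⁻¹) * wel x y (s ^ 2) * wel x y (s * t) := by
        rw [e9]; group
    _ = wel x y (s ^ 2) * wel x y (s * t) := by rw [e10, one_mul]

end

/-- in a finite field of odd characteristic there are nonsquares `s`, `t` with `s + t = 1` -/
theorem exists_nonsquares {F : Type} [Field F] [Finite F] (h2 : ringChar F ≠ 2) :
    ∃ s t : F, ¬ IsSquare s ∧ ¬ IsSquare t ∧ s + t = 1 := by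
  classical
  have := Fintype.ofFinite F
  by_contra hcon
  push Not at hcon
  obtain ⟨n, hn⟩ := FiniteField.exists_nonsquare h2
  have hn0 : n ≠ 0 := by
    rintro rfl
    exact hn ⟨0, by simp⟩
  let N : Finset F := Finset.univ.filter fun s => ¬ IsSquare s
  let Q : Finset F := Finset.univ.filter fun s => IsSquare s ∧ s ≠ 0
  have h1 : Q.card ≤ N.card := by
    apply Finset.card_le_card_of_injOn (fun s => n * s)
    · intro s hs
      simp only [Q, Finset.coe_filter, Finset.mem_univ, true_and, Set.mem_ofPred_eq] at hs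
      simp only [N, Finset.coe_filter, Finset.mem_univ, true_and, Set.mem_ofPred_eq]
      rintro ⟨r, hr⟩
      obtain ⟨⟨u, hu⟩, hs0⟩ := hs
      have hu0 : u ≠ 0 := by
        rintro rfl
        apply hs0
        rw [hu]; ring
      apply hn
      refine ⟨r / u, ?_⟩
      rw [div_mul_div_comm, ← hr, ← hu]
      field_simp
    · intro a _ b _ hab
      exact mul_left_cancel₀ hn0 hab
  have h3 : N.card ≤ (Q.erase 1).card := by
    apply Finset.card_le_card_of_injOn (fun s => 1 - s)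
    · intro s hs
      simp only [N, Finset.coe_filter, Finset.mem_univ, true_and, Set.mem_ofPred_eq] at hs
      have hs0 : s ≠ 0 := by
        rintro rfl
        exact hs ⟨0, by simp⟩
      have hs1 : s ≠ 1 := by
        rintro rfl
        exact hs ⟨1, by simp⟩
      simp only [Q, Finset.coe_erase, Finset.coe_filter, Finset.mem_univ, true_and]
      refine ⟨⟨?_, sub_ne_zero.2 hs1.symm⟩, ?_⟩
      · by_contra hns
        exact hcon s (1 - s) hs hns (by ring)
      · simp only [Set.mem_singleton_iff]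
        intro h
        apply hs0
        linear_combination -h
    · intro a _ b _ hab
      simpa using hab
  have h4 : (1 : F) ∈ Q := by
    simp only [Q, Finset.mem_filter, Finset.mem_univ, true_and]
    exact ⟨⟨1, by simp⟩, one_ne_zero⟩
  have h5 := Finset.card_erase_lt_of_mem h4
  omega

/-- the product of two nonsquares is a square -/
theorem mul_nonsquare {F : Type} [Field F] [Finite F] (h2 : ringChar F ≠ 2) {a b : F}
    (ha : ¬ IsSquare a) (hb : ¬ IsSquare b) : IsSquare (a * b) := by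
  classical
  have := Fintype.ofFinite F
  have ha0 : a ≠ 0 := by rintro rfl; exact ha ⟨0, by simp⟩
  have hb0 : b ≠ 0 := by rintro rfl; exact hb ⟨0, by simp⟩
  have h := quadraticChar_one_iff_isSquare (F := F) (a := a * b) (mul_ne_zero ha0 hb0)
  rw [← h, map_mul, (quadraticChar_neg_one_iff_not_isSquare (F := F)).2 ha,
    (quadraticChar_neg_one_iff_not_isSquare (F := F)).2 hb]
  norm_num

/-- the symbol is trivial -/
theorem Rk1.h_mul {F K : Type} [Field F] [Finite F] [Group K] {x y : F → K} (h : Rk1 x y)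
    (h2 : ringChar F ≠ 2)
    (hc : ∀ s t : F, s ≠ 0 → t ≠ 0 →
      hel x y s * hel x y t * (hel x y (s * t))⁻¹ ∈ Subgroup.center K)
    {s t : F} (hs : s ≠ 0) (ht : t ≠ 0) : hel x y s * hel x y t = hel x y (s * t) := by
  classical
  have := Fintype.ofFinite F
  -- powers of a generator
  obtain ⟨g, hg⟩ := IsCyclic.exists_generator (α := Fˣ)
  have hpow : ∀ n : ℕ, ∃ z ∈ Subgroup.center K, hel x y ((g : F) ^ n) = hel x y (g : F) ^ n * z := by
    intro n
    induction n with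
    | zero => exact ⟨1, one_mem _, by rw [pow_zero, pow_zero, h.h1, one_mul]⟩
    | succ n ih =>
      obtain ⟨z, hz, hzn⟩ := ih
      have h3 := hc ((g : F) ^ n) (g : F) (pow_ne_zero _ g.ne_zero) g.ne_zero
      set c := hel x y ((g : F) ^ n) * hel x y (g : F) * (hel x y ((g : F) ^ n * g))⁻¹ with hcdef
      have h4 : hel x y ((g : F) ^ n * g) = c⁻¹ * (hel x y ((g : F) ^ n) * hel x y (g : F)) := by
        rw [hcdef]; group
      refine ⟨z * c⁻¹, Subgroup.mul_mem _ hz (Subgroup.inv_mem _ h3), ?_⟩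
      rw [pow_succ, h4, hzn, pow_succ]
      have hzc := Subgroup.mem_center_iff.1 hz
      have hcc := Subgroup.mem_center_iff.1 (Subgroup.inv_mem _ h3)
      rw [← hcc, mul_assoc, mul_assoc, mul_assoc, ← mul_assoc z (hel x y (g : F)), ← hzc,
        mul_assoc]
  have hall : ∀ a : F, a ≠ 0 → ∃ n : ℕ, ∃ z ∈ Subgroup.center K,
      hel x y a = hel x y (g : F) ^ n * z := by
    intro a ha
    obtain ⟨n, hn⟩ := (mem_powers_iff_mem_zpowers.2 (hg (Units.mk0 a ha)))
    obtain ⟨z, hz, hzn⟩ := hpow n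
    refine ⟨n, z, hz, ?_⟩
    rw [← hzn]
    congr 1
    have h5 := congrArg Units.val hn
    simpa using h5.symm
  have hcomm : ∀ a b : F, a ≠ 0 → b ≠ 0 → Commute (hel x y a) (hel x y b) := by
    intro a b ha hb
    obtain ⟨n, z, hz, hn⟩ := hall a ha
    obtain ⟨m, z', hz', hm⟩ := hall b hb
    rw [hn, hm]
    have c1 : ∀ k, Commute z k := fun k => (Subgroup.mem_center_iff.1 hz k).symm
    have c2 : ∀ k, Commute z' k := fun k => (Subgroup.mem_center_iff.1 hz' k).symm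
    have c3 : Commute (hel x y (g : F) ^ n) (hel x y (g : F) ^ m) :=
      (Commute.refl _).pow_pow n m
    exact (((c3.mul_right (c2 _).symm)).mul_left ((c1 _).mul_right (c1 _)))
  -- squares
  have hsq : ∀ a b : F, a ≠ 0 → b ≠ 0 → hel x y (a ^ 2 * b) = hel x y (a ^ 2) * hel x y b := by
    intro a b ha hb
    have h3 := h.hh ha hb
    rw [(hcomm a b ha hb).eq, mul_assoc, mul_inv_cancel, mul_one] at h3
    have h4 : hel x y (a ^ 2 * b) = hel x y b * hel x y (a ^ 2) := by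
      rw [h3]; group
    rw [h4, (hcomm b (a ^ 2) hb (pow_ne_zero 2 ha)).eq]
  -- the special pair
  obtain ⟨s0, t0, hs0, ht0, hst⟩ := exists_nonsquares h2
  have hs00 : s0 ≠ 0 := by rintro rfl; exact hs0 ⟨0, by simp⟩
  have ht00 : t0 ≠ 0 := by rintro rfl; exact ht0 ⟨0, by simp⟩
  have hspec : hel x y s0 * hel x y t0⁻¹ = hel x y (s0 * t0⁻¹) := by
    have h3 := h.wst hs00 ht00 hst
    rw [h.w_eq s0, h.w_eq t0, h.w_eq (s0 ^ 2), h.w_eq (s0 * t0)] at h3
    have h4 : hel x y s0 * (wel x y 1 * hel x y t0 * (wel x y 1)⁻¹) =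
        hel x y (s0 ^ 2) * (wel x y 1 * hel x y (s0 * t0) * (wel x y 1)⁻¹) := by
      have h5 := congrArg (fun k => k * (wel x y 1)⁻¹ * (wel x y 1)⁻¹) h3
      simp only [mul_assoc, mul_inv_cancel, mul_one] at h5
      simpa only [mul_assoc] using h5
    rw [h.wh ht00, h.wh (mul_ne_zero hs00 ht00), ← hsq s0 _ hs00
      (inv_ne_zero (mul_ne_zero hs00 ht00))] at h4
    rw [h4]
    congr 1
    field_simp
  by_cases hs' : IsSquare s
  · obtain ⟨a, rfl⟩ := hs'
    have ha : a ≠ 0 := left_ne_zero_of_mul hs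
    rw [← pow_two, hsq a t ha ht]
  by_cases ht' : IsSquare t
  · obtain ⟨a, rfl⟩ := ht'
    have ha : a ≠ 0 := left_ne_zero_of_mul ht
    rw [← pow_two, mul_comm s, hsq a s ha hs, (hcomm _ _ hs (pow_ne_zero 2 ha)).eq]
  · have hsi : ¬ IsSquare s0⁻¹ := by rwa [isSquare_inv]
    obtain ⟨a, ha⟩ := mul_nonsquare h2 hs' hsi
    obtain ⟨b, hb⟩ := mul_nonsquare h2 ht' ht0
    have e1 : s = a ^ 2 * s0 := by
      rw [pow_two, ← ha]; field_simp
    have e2 : t = b ^ 2 * t0⁻¹ := by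
      rw [pow_two, ← hb]; field_simp
    have ha0 : a ≠ 0 := by
      rintro rfl
      apply hs
      rw [e1]; ring
    have hb0 : b ≠ 0 := by
      rintro rfl
      apply ht
      rw [e2]; ring
    have hti : t0⁻¹ ≠ 0 := inv_ne_zero ht00
    rw [e1, e2, hsq a s0 ha0 hs00, hsq b _ hb0 hti]
    have e3 : a ^ 2 * s0 * (b ^ 2 * t0⁻¹) = a ^ 2 * (b ^ 2 * (s0 * t0⁻¹)) := by ring
    rw [e3, hsq a _ ha0 (mul_ne_zero (pow_ne_zero 2 hb0) (mul_ne_zero hs00 hti)),
      hsq b _ hb0 (mul_ne_zero hs00 hti), ← hspec]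
    have c1 := hcomm s0 (b ^ 2) hs00 (pow_ne_zero 2 hb0)
    rw [mul_assoc, ← mul_assoc (hel x y s0), c1.eq, mul_assoc]

end Pool.Agent.Helper58.PSL
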